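import Pool.Agent.Helper57.HS.GoalsG
import Pool.Agent.Helper10.SP.WIRT

/-! The local Schauder estimate (packet LOCS). -/

open Complex Metric Set Filter Topology MeasureTheory
open scoped ContDiff ComplexConjugate ComplexOrder Manifold Matrix

namespace Pool.Agent.Helper58.HS

open Pool.Agent.Helper95.Lin Pool.Agent.Helper16.Abund Pool.Agent.Helper92.Orb Pool.Agent.Helper10.SP
  Pool.Agent.Helper95.RK Pool.Agent.Helper57.HS

namespace Locs

/-! ### The retraction -/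

lemma clamp_lip (r s t : ℝ) : |max (-r) (min r s) - max (-r) (min r t)| ≤ |s - t| := by
  have h1 := abs_max_sub_max_le_abs (min r s) (min r t) (-r)
  have h2 := abs_min_sub_min_le_max r s r t
  rw [max_comm (-r) (min r s), max_comm (-r) (min r t)]
  refine h1.trans (h2.trans ?_)
  simp

noncomputable def cl (r : ℝ) (z : ℂ) : ℂ := ⟨max (-r) (min r z.re), max (-r) (min r z.im)⟩

lemma cl_lip (r : ℝ) (z w : ℂ) : ‖cl r z - cl r w‖ ≤ ‖z - w‖ := by
  rw [Complex.norm_def, Complex.norm_def]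
  apply Real.sqrt_le_sqrt
  rw [normSq_apply, normSq_apply]
  have h1 := clamp_lip r z.re w.re
  have h2 := clamp_lip r z.im w.im
  have h3 := mul_self_le_mul_self (abs_nonneg _) h1
  have h4 := mul_self_le_mul_self (abs_nonneg _) h2
  rw [abs_mul_abs_self, abs_mul_abs_self] at h3 h4
  simp only [cl, Complex.sub_re, Complex.sub_im]
  linarith

lemma cl_eq {r : ℝ} {z : ℂ} (h : ‖z‖ ≤ r) : cl r z = z := by
  have h1 := abs_le.1 ((Complex.abs_re_le_norm z).trans h)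
  have h2 := abs_le.1 ((Complex.abs_im_le_norm z).trans h)
  apply Complex.ext
  · simp only [cl]
    rw [min_eq_right h1.2, max_eq_right h1.1]
  · simp only [cl]
    rw [min_eq_right h2.2, max_eq_right h2.1]

lemma cl_norm {r : ℝ} (hr : 0 ≤ r) (z : ℂ) : ‖cl r z‖ ≤ 2 * r := by
  refine (Complex.norm_le_abs_re_add_abs_im _).trans ?_
  have h : ∀ t : ℝ, |max (-r) (min r t)| ≤ r := by
    intro t
    rw [abs_le]
    exact ⟨le_max_left _ _, max_le (by linarith) (min_le_left _ _)⟩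
  have h1 := h z.re
  have h2 := h z.im
  simp only [cl]
  linarith

variable {n : ℕ}

noncomputable def ret (x₀ : Cn n) (r : ℝ) (x : Cn n) : Cn n := fun i => x₀ i + cl r (x i - x₀ i)

lemma ret_lip (x₀ : Cn n) (r : ℝ) (x y : Cn n) : ‖ret x₀ r x - ret x₀ r y‖ ≤ ‖x - y‖ := by
  rw [pi_norm_le_iff_of_nonneg (norm_nonneg _)]
  intro i
  have h := cl_lip r (x i - x₀ i) (y i - x₀ i)
  have h2 := norm_le_pi_norm (x - y) i
  have e1 : (ret x₀ r x - ret x₀ r y) i = cl r (x i - x₀ i) - cl r (y i - x₀ i) := by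
    simp [ret]
  have e2 : (x i - x₀ i) - (y i - x₀ i) = (x - y) i := by
    simp
  rw [e1]
  rw [e2] at h
  exact h.trans h2

lemma ret_eq {x₀ : Cn n} {r : ℝ} {x : Cn n} (h : x ∈ closedBall x₀ r) : ret x₀ r x = x := by
  rw [mem_closedBall, dist_eq_norm] at h
  funext i
  have h2 := norm_le_pi_norm (x - x₀) i
  have : cl r (x i - x₀ i) = x i - x₀ i := cl_eq (h2.trans h)
  simp [ret, this]

lemma ret_mem (x₀ : Cn n) {r : ℝ} (hr : 0 ≤ r) (x : Cn n) : ret x₀ r x ∈ closedBall x₀ (2 * r) := by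
  rw [mem_closedBall, dist_eq_norm, pi_norm_le_iff_of_nonneg (by linarith)]
  intro i
  have : (ret x₀ r x - x₀) i = cl r (x i - x₀ i) := by simp [ret]
  rw [this]
  exact cl_norm hr _

/-! ### Hölder bounds -/

lemma CB.mono {E : Type*} [NormedAddCommGroup E] {a K L : ℝ} {S T : Set (Cn n)} {f : Cn n → E}
    (h : CB a S K f) (hT : T ⊆ S) (hKL : K ≤ L) : CB a T L f := by
  refine ⟨fun x hx => (h.1 x (hT hx)).trans hKL, fun x hx y hy => (h.2 x (hT hx) y (hT hy)).trans ?_⟩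
  exact mul_le_mul_of_nonneg_right hKL (Real.rpow_nonneg (norm_nonneg _) _)

lemma cb_of_lip {E : Type*} [NormedAddCommGroup E] (f : Cn n → E) {L B : ℝ}
    (hL : ∀ x y, ‖f x - f y‖ ≤ L * ‖x - y‖) (hB : ∀ x, ‖f x‖ ≤ B) {a : ℝ} (ha : 0 < a)
    (ha1 : a < 1) : CB a univ (|L| + 2 * B) f := by
  have hB0 : 0 ≤ B := (norm_nonneg (f 0)).trans (hB 0)
  have hL0 := abs_nonneg L
  refine ⟨fun x _ => (hB x).trans (by linarith), fun x _ y _ => ?_⟩
  rcases le_total ‖x - y‖ 1 with h | h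
  · have h1 : ‖x - y‖ ≤ ‖x - y‖ ^ a := by
      rcases (norm_nonneg (x - y)).eq_or_lt with h0 | h0
      · rw [← h0, Real.zero_rpow ha.ne']
      · exact Real.self_le_rpow_of_le_one h0.le h ha1.le
    have h0 := norm_nonneg (x - y)
    calc ‖f x - f y‖ ≤ L * ‖x - y‖ := hL x y
      _ ≤ |L| * ‖x - y‖ := mul_le_mul_of_nonneg_right (le_abs_self L) h0
      _ ≤ |L| * ‖x - y‖ ^ a := mul_le_mul_of_nonneg_left h1 hL0
      _ ≤ (|L| + 2 * B) * ‖x - y‖ ^ a :=
        mul_le_mul_of_nonneg_right (by linarith) (Real.rpow_nonneg h0 _)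
  · have h1 : 1 ≤ ‖x - y‖ ^ a := Real.one_le_rpow h ha.le
    calc ‖f x - f y‖ ≤ ‖f x‖ + ‖f y‖ := norm_sub_le _ _
      _ ≤ (|L| + 2 * B) * 1 := by linarith [hB x, hB y]
      _ ≤ (|L| + 2 * B) * ‖x - y‖ ^ a := mul_le_mul_of_nonneg_left h1 (by linarith)

lemma cb_compact {E : Type*} [NormedAddCommGroup E] [NormedSpace ℝ E] (f : Cn n → E)
    (hf : ContDiff ℝ 1 f) (hc : HasCompactSupport f) {a : ℝ} (ha : 0 < a)
    (ha1 : a < 1) : ∃ K, CB a univ K f := by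
  obtain ⟨C, hC⟩ := hf.lipschitzWith_of_hasCompactSupport hc one_ne_zero
  obtain ⟨B, hB⟩ := hf.continuous.bounded_above_of_compact_support hc
  refine ⟨_, cb_of_lip f (L := C) (B := B) ?_ hB ha ha1⟩
  intro x y
  have := hC.dist_le_mul x y
  rwa [dist_eq_norm, dist_eq_norm] at this

/-! ### Wirtinger calculus -/

lemma cd_mul {f g : Cn n → ℂ} {x : Cn n} (hf : DifferentiableAt ℝ f x)
    (hg : DifferentiableAt ℝ g x) (j : Fin n) :
    cd j (fun y => f y * g y) x = f x * cd j g x + cd j f x * g x := by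
  simp only [cd]
  rw [fderiv_fun_mul hf hg]
  simp only [_root_.add_apply, _root_.smul_apply, smul_eq_mul]
  ring

lemma cdb_mul {f g : Cn n → ℂ} {x : Cn n} (hf : DifferentiableAt ℝ f x)
    (hg : DifferentiableAt ℝ g x) (j : Fin n) :
    cdb j (fun y => f y * g y) x = f x * cdb j g x + cdb j f x * g x := by
  simp only [cdb]
  rw [fderiv_fun_mul hf hg]
  simp only [_root_.add_apply, _root_.smul_apply, smul_eq_mul]
  ring

lemma cd_add {f g : Cn n → ℂ} {x : Cn n} (hf : DifferentiableAt ℝ f x)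
    (hg : DifferentiableAt ℝ g x) (j : Fin n) :
    cd j (fun y => f y + g y) x = cd j f x + cd j g x := by
  simp only [cd]
  rw [fderiv_fun_add hf hg]
  simp only [_root_.add_apply]
  ring

lemma cd_congr {f g : Cn n → ℂ} {x : Cn n} (h : f =ᶠ[𝓝 x] g) (j : Fin n) :
    cd j f x = cd j g x := by
  simp only [cd]
  rw [h.fderiv_eq]

lemma cdb_congr {f g : Cn n → ℂ} {x : Cn n} (h : f =ᶠ[𝓝 x] g) (j : Fin n) :
    cdb j f x = cdb j g x := by
  simp only [cdb]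
  rw [h.fderiv_eq]

/-- complexification -/
noncomputable def cx (v : Cn n → ℝ) : Cn n → ℂ := fun y => ((v y : ℝ) : ℂ)

lemma cx_smooth {v : Cn n → ℝ} {W : Set (Cn n)} (hv : ContDiffOn ℝ ∞ v W) :
    ContDiffOn ℝ ∞ (cx v) W :=
  Complex.ofRealCLM.contDiff.comp_contDiffOn hv

/-- the mixed term -/
noncomputable def mixG (χ v : Cn n → ℝ) (x : Cn n) : Matrix (Fin n) (Fin n) ℂ :=
  Matrix.of fun j k => cd j (cx χ) x * cdb k (cx v) x + cdb k (cx χ) x * cd j (cx v) x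

lemma LM_mul {χ v : Cn n → ℝ} {W : Set (Cn n)} (hW : IsOpen W) (hχ : ContDiffOn ℝ ∞ χ W)
    (hv : ContDiffOn ℝ ∞ v W) {x : Cn n} (hx : x ∈ W) :
    LM (fun y => χ y * v y) x = (χ x : ℂ) • LM v x + mixG χ v x + (v x : ℂ) • LM χ x := by
  have hχ' := cx_smooth hχ
  have hv' := cx_smooth hv
  ext j k
  simp only [LM, mixG, Matrix.of_apply, Matrix.add_apply, Matrix.smul_apply, smul_eq_mul]
  have h1 : (fun y => cdb k (fun y => ((χ y * v y : ℝ) : ℂ)) y) =ᶠ[𝓝 x]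
      fun y => cx χ y * cdb k (cx v) y + cdb k (cx χ) y * cx v y := by
    filter_upwards [hW.mem_nhds hx] with y hy
    have e : (fun y => ((χ y * v y : ℝ) : ℂ)) = fun y => cx χ y * cx v y := by
      funext y
      simp [cx]
    rw [e]
    exact cdb_mul (Wirt.dAt hW hχ' hy) (Wirt.dAt hW hv' hy) k
  have h2 : cd j (cdb k (fun y => ((χ y * v y : ℝ) : ℂ))) x =
      cd j (fun y => cx χ y * cdb k (cx v) y + cdb k (cx χ) y * cx v y) x := cd_congr h1 j
  rw [h2]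
  have d1 := Wirt.dAt hW hχ' hx
  have d2 := Wirt.dAt hW hv' hx
  have d3 := Wirt.dAt hW (Wirt.cdb_smooth hW hχ' k) hx
  have d4 := Wirt.dAt hW (Wirt.cdb_smooth hW hv' k) hx
  rw [cd_add (f := fun y => cx χ y * cdb k (cx v) y) (g := fun y => cdb k (cx χ) y * cx v y)
    (d1.mul d4) (d3.mul d2), cd_mul d1 d4, cd_mul d3 d2]
  have e1 : cd j (cdb k fun y => ((v y : ℝ) : ℂ)) x = cd j (cdb k (cx v)) x := rfl
  have e2 : cd j (cdb k fun y => ((χ y : ℝ) : ℂ)) x = cd j (cdb k (cx χ)) x := rfl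
  rw [e1, e2]
  simp only [cx]
  ring

lemma LM_zero {w : Cn n → ℝ} {x : Cn n} (h : w =ᶠ[𝓝 x] fun _ => 0) : LM w x = 0 := by
  ext j k
  simp only [LM, Matrix.of_apply, Matrix.zero_apply]
  have h1 : cdb k (fun y => ((w y : ℝ) : ℂ)) =ᶠ[𝓝 x] fun _ => 0 := by
    filter_upwards [h.eventuallyEq_nhds] with y hy
    have h2 : (fun y => ((w y : ℝ) : ℂ)) =ᶠ[𝓝 y] fun _ => 0 := by
      filter_upwards [hy] with z hz
      rw [hz]
      simp
    rw [cdb_congr h2]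
    simp [cdb]
  rw [cd_congr h1]
  simp [cd]

lemma bp_cd {f : Cn n → ℂ} (hf : ContDiff ℝ ∞ f) (hc : HasCompactSupport f) (j : Fin n) :
    ContDiff ℝ ∞ (cd j f) ∧ HasCompactSupport (cd j f) :=
  ⟨contDiffOn_univ.1 (Wirt.cd_smooth isOpen_univ (contDiffOn_univ.2 hf) j),
    (hc.fderiv (𝕜 := ℝ)).comp_left
      (g := fun L : Cn n →L[ℝ] ℂ => L (Pi.single j 1) - I * L (Pi.single j I)) (by simp)⟩

lemma bp_cdb {f : Cn n → ℂ} (hf : ContDiff ℝ ∞ f) (hc : HasCompactSupport f) (j : Fin n) :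
    ContDiff ℝ ∞ (cdb j f) ∧ HasCompactSupport (cdb j f) :=
  ⟨contDiffOn_univ.1 (Wirt.cdb_smooth isOpen_univ (contDiffOn_univ.2 hf) j),
    (hc.fderiv (𝕜 := ℝ)).comp_left
      (g := fun L : Cn n →L[ℝ] ℂ => L (Pi.single j 1) + I * L (Pi.single j I)) (by simp)⟩

lemma cb_fin {ι : Type*} [Fintype ι] {a : ℝ} (f : ι → Cn n → ℂ)
    (h : ∀ i, ∃ K, CB a univ K (f i)) : ∃ K, 0 ≤ K ∧ ∀ i, CB a univ K (f i) := by
  choose K hK using h
  refine ⟨∑ i, |K i|, Finset.sum_nonneg fun i _ => abs_nonneg _, fun i => ?_⟩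
  refine CB.mono (hK i) (Subset.refl _) ?_
  exact (le_abs_self _).trans (Finset.single_le_sum (f := fun i => |K i|)
    (fun i _ => abs_nonneg _) (Finset.mem_univ i))

lemma chi_bounds {a : ℝ} (ha : 0 < a) (ha1 : a < 1) {χ : Cn n → ℝ} (hχ : ContDiff ℝ ∞ χ)
    (hc : HasCompactSupport χ) : ∃ K, 0 ≤ K ∧ CB a univ K (cx χ) ∧
    (∀ j, CB a univ K (cd j (cx χ))) ∧ (∀ j, CB a univ K (cdb j (cx χ))) ∧
    ∀ j k, CB a univ K fun x => LM χ x j k := by
  have h0 : ContDiff ℝ ∞ (cx χ) := Complex.ofRealCLM.contDiff.comp hχ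
  have h0c : HasCompactSupport (cx χ) := hc.comp_left (g := fun t : ℝ => (t : ℂ)) (by simp)
  have one : ∀ f : Cn n → ℂ, ContDiff ℝ ∞ f → HasCompactSupport f → ∃ K, CB a univ K f :=
    fun f hf hfc => cb_compact f (hf.of_le (by exact_mod_cast le_top)) hfc ha ha1
  obtain ⟨K1, hK1, b1⟩ := cb_fin (fun _ : Unit => cx χ) (fun _ => one _ h0 h0c)
  obtain ⟨K2, hK2, b2⟩ := cb_fin (fun j : Fin n => cd j (cx χ))
    (fun j => one _ (bp_cd h0 h0c j).1 (bp_cd h0 h0c j).2)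
  obtain ⟨K3, hK3, b3⟩ := cb_fin (fun j : Fin n => cdb j (cx χ))
    (fun j => one _ (bp_cdb h0 h0c j).1 (bp_cdb h0 h0c j).2)
  obtain ⟨K4, hK4, b4⟩ := cb_fin (fun p : Fin n × Fin n => fun x => LM χ x p.1 p.2)
    (fun p => one _ (bp_cd (bp_cdb h0 h0c p.2).1 (bp_cdb h0 h0c p.2).2 p.1).1
      (bp_cd (bp_cdb h0 h0c p.2).1 (bp_cdb h0 h0c p.2).2 p.1).2)
  refine ⟨K1 + K2 + K3 + K4, by positivity, CB.mono (b1 ()) (Subset.refl _) (by linarith),
    fun j => CB.mono (b2 j) (Subset.refl _) (by linarith),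
    fun j => CB.mono (b3 j) (Subset.refl _) (by linarith),
    fun j k => CB.mono (b4 (j, k)) (Subset.refl _) (by linarith)⟩

lemma norm_pm (L : Cn n →L[ℝ] ℝ) (j : Fin n) (s : ℂ) (hs : ‖s‖ = 1) :
    ‖((L (Pi.single j 1) : ℝ) : ℂ) + s * ((L (Pi.single j I) : ℝ) : ℂ)‖ ≤ 2 * ‖L‖ := by
  have e1 : ‖(Pi.single j (1 : ℂ) : Cn n)‖ = 1 := by simp [Pi.norm_single]
  have e2 : ‖(Pi.single j (I : ℂ) : Cn n)‖ = 1 := by simp [Pi.norm_single]
  have h1 := L.le_opNorm (Pi.single j 1)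
  have h2 := L.le_opNorm (Pi.single j I)
  rw [e1, mul_one] at h1
  rw [e2, mul_one] at h2
  calc _ ≤ ‖((L (Pi.single j 1) : ℝ) : ℂ)‖ + ‖s * ((L (Pi.single j I) : ℝ) : ℂ)‖ := norm_add_le _ _
    _ = ‖L (Pi.single j 1)‖ + ‖L (Pi.single j I)‖ := by
        rw [norm_mul, hs, one_mul, Complex.norm_real, Complex.norm_real]
    _ ≤ 2 * ‖L‖ := by linarith

lemma cx_fd {v : Cn n → ℝ} {x : Cn n} (h : DifferentiableAt ℝ v x) (e : Cn n) :
    fderiv ℝ (cx v) x e = ((fderiv ℝ v x e : ℝ) : ℂ) := by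
  have h1 : HasFDerivAt (cx v) (Complex.ofRealCLM.comp (fderiv ℝ v x)) x :=
    Complex.ofRealCLM.hasFDerivAt.comp x h.hasFDerivAt
  rw [h1.fderiv]
  simp

lemma v_bounds {v : Cn n → ℝ} {W S : Set (Cn n)} {a N : ℝ} (hW : IsOpen W)
    (hv : ContDiffOn ℝ ∞ v W) (hS : S ⊆ W) (h : C1B a S N v) :
    CB a S N (cx v) ∧ (∀ j, CB a S (2 * N) (cd j (cx v))) ∧ ∀ j, CB a S (2 * N) (cdb j (cx v)) := by
  have hd : ∀ x ∈ S, DifferentiableAt ℝ v x := fun x hx =>
    (hv.contDiffAt (hW.mem_nhds (hS hx))).differentiableAt (by simp)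
  obtain ⟨h1, h2, h3⟩ := h
  refine ⟨⟨fun x hx => ?_, fun x hx y hy => ?_⟩, fun j => ⟨fun x hx => ?_, fun x hx y hy => ?_⟩,
    fun j => ⟨fun x hx => ?_, fun x hx y hy => ?_⟩⟩
  · have := (h1 x hx).1
    simpa [cx] using this
  · have := h2 x hx y hy
    simp only [cx]
    rw [← Complex.ofReal_sub, Complex.norm_real]
    exact this
  · have e : cd j (cx v) x = ((fderiv ℝ v x (Pi.single j 1) : ℝ) : ℂ) +
        (-I) * ((fderiv ℝ v x (Pi.single j I) : ℝ) : ℂ) := by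
      simp only [cd]
      rw [cx_fd (hd x hx), cx_fd (hd x hx)]
      ring
    rw [e]
    refine (norm_pm _ j (-I) (by simp)).trans ?_
    linarith [(h1 x hx).2]
  · have e : cd j (cx v) x - cd j (cx v) y =
        (((fderiv ℝ v x - fderiv ℝ v y) (Pi.single j 1) : ℝ) : ℂ) +
        (-I) * (((fderiv ℝ v x - fderiv ℝ v y) (Pi.single j I) : ℝ) : ℂ) := by
      simp only [cd]
      rw [cx_fd (hd x hx), cx_fd (hd x hx), cx_fd (hd y hy), cx_fd (hd y hy)]
      simp only [_root_.sub_apply, Complex.ofReal_sub]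
      ring
    rw [e]
    refine (norm_pm _ j (-I) (by simp)).trans ?_
    have := h3 x hx y hy
    linarith
  · have e : cdb j (cx v) x = ((fderiv ℝ v x (Pi.single j 1) : ℝ) : ℂ) +
        I * ((fderiv ℝ v x (Pi.single j I) : ℝ) : ℂ) := by
      simp only [cdb]
      rw [cx_fd (hd x hx), cx_fd (hd x hx)]
    rw [e]
    refine (norm_pm _ j I (by simp)).trans ?_
    linarith [(h1 x hx).2]
  · have e : cdb j (cx v) x - cdb j (cx v) y =
        (((fderiv ℝ v x - fderiv ℝ v y) (Pi.single j 1) : ℝ) : ℂ) +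
        I * (((fderiv ℝ v x - fderiv ℝ v y) (Pi.single j I) : ℝ) : ℂ) := by
      simp only [cdb]
      rw [cx_fd (hd x hx), cx_fd (hd x hx), cx_fd (hd y hy), cx_fd (hd y hy)]
      simp only [_root_.sub_apply, Complex.ofReal_sub]
      ring
    rw [e]
    refine (norm_pm _ j I (by simp)).trans ?_
    have := h3 x hx y hy
    linarith

lemma cb_congr {E : Type*} [NormedAddCommGroup E] {a K : ℝ} {S : Set (Cn n)} {f g : Cn n → E}
    (h : CB a S K f) (he : ∀ x ∈ S, g x = f x) : CB a S K g := by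
  refine ⟨fun x hx => ?_, fun x hx y hy => ?_⟩
  · rw [he x hx]
    exact h.1 x hx
  · rw [he x hx, he y hy]
    exact h.2 x hx y hy

/-- The product `χ v` is smooth. -/
lemma w_smooth {χ v : Cn n → ℝ} {W : Set (Cn n)} (hW : IsOpen W) (hχ : ContDiff ℝ ∞ χ)
    (hv : ContDiffOn ℝ ∞ v W) (hs : tsupport χ ⊆ W) : ContDiff ℝ ∞ fun y => χ y * v y := by
  rw [contDiff_iff_contDiffAt]
  intro x
  by_cases hx : x ∈ W
  · exact hχ.contDiffAt.mul (hv.contDiffAt (hW.mem_nhds hx))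
  · have hx' : x ∉ tsupport χ := fun h => hx (hs h)
    have h0 : χ =ᶠ[𝓝 x] 0 := notMem_tsupport_iff_eventuallyEq.1 hx'
    have h1 : (fun y => χ y * v y) =ᶠ[𝓝 x] fun _ => 0 := by
      filter_upwards [h0] with y hy
      rw [hy]
      simp
    exact contDiffAt_const.congr_of_eventuallyEq h1

/-- The Hölder bound for the right side on the ball. -/
lemma rhs_bound (h2 : S_HALG) {a : ℝ} (ha : 0 < a) {W Br : Set (Cn n)} (hW : IsOpen W)
    (hBr : Br ⊆ W) {χ v : Cn n → ℝ} (hχ : ContDiff ℝ ∞ χ) (hv : ContDiffOn ℝ ∞ v W)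
    {K A₀ c M N : ℝ} (hK : 0 ≤ K) (hA₀ : 0 ≤ A₀) (hM : 0 ≤ M) (hN : 0 ≤ N) (hc : |c| ≤ 1)
    (k1 : CB a univ K (cx χ)) (k2 : ∀ j, CB a univ K (cd j (cx χ)))
    (k3 : ∀ j, CB a univ K (cdb j (cx χ))) (k4 : ∀ j k, CB a univ K fun x => LM χ x j k)
    {A : Cn n → Matrix (Fin n) (Fin n) ℂ} (hA : ∀ i j, CB a Br A₀ fun x => A x i j)
    (hvN : C1B a Br N v)
    (hM' : CB a Br M (fun x => Matrix.trace (A x * LM v x) - ((c * v x : ℝ) : ℂ))) :
    CB a Br ((4 * K + 20 * n ^ 2 * A₀ * K) * (M + N))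
      (fun x => Matrix.trace (A x * LM (fun y => χ y * v y) x)) := by
  obtain ⟨alg, tr, -⟩ := h2 n a Br ha
  obtain ⟨v1, v2, v3⟩ := v_bounds hW hv hBr hvN
  have k1' : CB a Br K (cx χ) := CB.mono k1 (subset_univ _) le_rfl
  -- first term
  have t1 := (alg _ _ _ _ k1' hM').2
  -- second term
  have k5 : CB a Br K (fun x => (c : ℂ) * cx χ x) := by
    refine ⟨fun x hx => ?_, fun x hx y hy => ?_⟩
    · rw [norm_mul, Complex.norm_real, Real.norm_eq_abs]
      have := k1'.1 x hx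
      calc |c| * ‖cx χ x‖ ≤ 1 * K := mul_le_mul hc this (norm_nonneg _) zero_le_one
        _ = K := one_mul K
    · rw [← mul_sub, norm_mul, Complex.norm_real, Real.norm_eq_abs]
      have := k1'.2 x hx y hy
      calc |c| * ‖cx χ x - cx χ y‖ ≤ 1 * (K * ‖x - y‖ ^ a) :=
            mul_le_mul hc this (norm_nonneg _) zero_le_one
        _ = _ := one_mul _
  have t2 := (alg _ _ _ _ k5 v1).2
  -- third term
  have g : ∀ j k, CB a Br (8 * K * N) fun x => mixG χ v x j k := by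
    intro j k
    have g1 := (alg _ _ _ _ (CB.mono (k2 j) (subset_univ _) le_rfl) (v3 k)).2
    have g2 := (alg _ _ _ _ (CB.mono (k3 k) (subset_univ _) le_rfl) (v2 j)).2
    have g3 := (alg _ _ _ _ g1 g2).1
    exact CB.mono g3 (Subset.refl _) (by linarith)
  have t3 := (tr A (mixG χ v) A₀ (8 * K * N) hA₀ (by positivity) hA g).2
  -- fourth term
  have g4 := (tr A (fun x => LM χ x) A₀ K hA₀ hK hA
    (fun i j => CB.mono (k4 i j) (subset_univ _) le_rfl)).2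
  have t4 := (alg _ _ _ _ v1 g4).2
  have t := (alg _ _ _ _ (alg _ _ _ _ t1 t2).1 (alg _ _ _ _ t3 t4).1).1
  refine cb_congr (CB.mono t (Subset.refl _) ?_) ?_
  · have e1 : 0 ≤ (n : ℝ) ^ 2 * A₀ * K := by positivity
    have e2 : 0 ≤ ((n : ℝ) ^ 2 * A₀ * K) * M := by positivity
    have e3 : 0 ≤ K * M := by positivity
    have e4 : 0 ≤ K * N := by positivity
    have e5 : 0 ≤ ((n : ℝ) ^ 2 * A₀ * K) * N := by positivity
    nlinarith [e2, e3, e4, e5]
  · intro x hx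
    rw [LM_mul hW hχ.contDiffOn hv (hBr hx)]
    rw [Matrix.mul_add, Matrix.mul_add, Matrix.trace_add, Matrix.trace_add, Matrix.mul_smul,
      Matrix.mul_smul, Matrix.trace_smul, Matrix.trace_smul]
    simp only [cx, smul_eq_mul]
    push_cast
    ring

/-- Extension by zero. -/
lemma ext_zero {a ρ K : ℝ} (ha : 0 < a) (hρ : 0 < ρ) (hK : 0 ≤ K) (x₀ : Cn n) (F : Cn n → ℂ)
    (h1 : CB a (ball x₀ (ρ / 4)) K F) (h2 : ∀ x ∉ closedBall x₀ (3 * ρ / 16), F x = 0) :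
    HB a univ (K * (1 + (ρ / 16) ^ (-a))) F := by
  have hp : 0 < (ρ / 16) ^ (-a) := Real.rpow_pos_of_pos (by linarith) _
  have key : ∀ x ∈ ball x₀ (ρ / 4), ∀ y ∉ ball x₀ (ρ / 4),
      ‖F x‖ ≤ K * (1 + (ρ / 16) ^ (-a)) * ‖x - y‖ ^ a := by
    intro x hx y hy
    by_cases hx2 : x ∈ closedBall x₀ (3 * ρ / 16)
    · have hxy : ρ / 16 ≤ ‖x - y‖ := by
        rw [mem_closedBall] at hx2
        rw [mem_ball, not_lt] at hy
        have := dist_triangle y x x₀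
        rw [dist_comm y x, dist_eq_norm x y] at this
        linarith
      have h3 : (ρ / 16) ^ a ≤ ‖x - y‖ ^ a := Real.rpow_le_rpow (by linarith) hxy ha.le
      have h4 : 1 ≤ (ρ / 16) ^ (-a) * ‖x - y‖ ^ a := by
        calc (1 : ℝ) = (ρ / 16) ^ (-a) * (ρ / 16) ^ a := by
              rw [← Real.rpow_add (by linarith)]
              simp
          _ ≤ _ := mul_le_mul_of_nonneg_left h3 hp.le
      have h5 : 0 ≤ ‖x - y‖ ^ a := Real.rpow_nonneg (norm_nonneg _) _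
      calc ‖F x‖ ≤ K := h1.1 x hx
        _ = K * 1 := (mul_one K).symm
        _ ≤ K * ((1 + (ρ / 16) ^ (-a)) * ‖x - y‖ ^ a) :=
            mul_le_mul_of_nonneg_left (by nlinarith) hK
        _ = _ := by ring
    · rw [h2 x hx2, norm_zero]
      have h5 : 0 ≤ ‖x - y‖ ^ a := Real.rpow_nonneg (norm_nonneg _) _
      positivity
  have hout : ∀ y ∉ ball x₀ (ρ / 4), F y = 0 := by
    intro y hy
    apply h2
    intro hy2
    apply hy
    rw [mem_closedBall] at hy2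
    rw [mem_ball]
    linarith
  intro x _ y _
  have h5 : 0 ≤ ‖x - y‖ ^ a := Real.rpow_nonneg (norm_nonneg _) _
  by_cases hx : x ∈ ball x₀ (ρ / 4)
  · by_cases hy : y ∈ ball x₀ (ρ / 4)
    · refine (h1.2 x hx y hy).trans (mul_le_mul_of_nonneg_right ?_ h5)
      nlinarith [mul_nonneg hK hp.le]
    · rw [hout y hy, sub_zero]
      exact key x hx y hy
  · by_cases hy : y ∈ ball x₀ (ρ / 4)
    · rw [hout x hx, zero_sub, norm_neg, norm_sub_rev x y]
      exact key y hy x hx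
    · rw [hout x hx, hout y hy, sub_zero, norm_zero]
      positivity

lemma fderiv_sq_congr {v w : Cn n → ℝ} {x : Cn n} (h : w =ᶠ[𝓝 x] v) : D2 w x = D2 v x := by
  unfold D2
  exact h.fderiv.fderiv_eq

lemma D2_subsingleton {v : Cn 0 → ℝ} (x : Cn 0) : D2 v x = 0 := by
  ext e e'
  have h : e = 0 := Subsingleton.elim _ _
  rw [h, map_zero]
  rfl

lemma norm_sub_null (L L' : Cn n →L[ℝ] Cn n →L[ℝ] ℝ) (h : L' = 0) : ‖L - L'‖ = ‖L‖ := by
  subst h
  exact congrArg norm (sub_zero L)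

/-- The second derivative of a smooth function with compact support is Hölder. -/
lemma D2_hoelder {w : Cn n → ℝ} (hw : ContDiff ℝ ∞ w) (hc : HasCompactSupport w) {a : ℝ}
    (ha : 0 < a) (ha1 : a < 1) : ∃ K', HB a univ K' (D2 w) := by
  have h1 : ContDiff ℝ 1 (D2 w) := by
    have h2 : ContDiff ℝ 2 (fderiv ℝ w) := (contDiff_infty.1 hw 3).fderiv_right (by norm_num)
    exact h2.fderiv_right (by norm_num)
  obtain ⟨K, hK⟩ := cb_compact (D2 w) h1 ((hc.fderiv (𝕜 := ℝ)).fderiv (𝕜 := ℝ)) ha ha1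
  exact ⟨K, hK.2⟩

/-- The local estimate. -/
lemma core (h2 : S_HALG) {a lam A₀ δ K₀ : ℝ} (ha : 0 < a) (ha1 : a < 1) (hA₀ : 0 ≤ A₀)
    (hK₀ : 0 < K₀)
    (hS : ∀ (x₀ : Cn n) (A : Cn n → Matrix (Fin n) (Fin n) ℂ), Ell lam (ball x₀ δ) A →
      (∀ i j, HB a (ball x₀ δ) A₀ fun x => A x i j) → ∀ w : Cn n → ℝ, ContDiff ℝ 2 w →
      tsupport w ⊆ ball x₀ δ → (∃ K', HB a univ K' (D2 w)) → ∀ M : ℝ,
      HB a univ M (fun x => Matrix.trace (A x * LM w x)) → HB a univ (K₀ * M) (D2 w))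
    (S' : Set (Cn n)) (ρ : ℝ) (hρ : 0 < ρ) (hρδ : ρ ≤ δ) (hρ1 : ρ ≤ 1) (x₀ : Cn n)
    (hx₀ : closedBall x₀ ρ ⊆ interior S') :
    ∃ K > 0, ∀ A : Cn n → Matrix (Fin n) (Fin n) ℂ, Ell lam S' A →
      (∀ i j, CB a S' A₀ fun x => A x i j) →
      ∀ v : Cn n → ℝ, ContDiffOn ℝ ∞ v (interior S') → ∀ c M N : ℝ, |c| ≤ 1 → C1B a S' N v →
      CB a S' M (fun x => Matrix.trace (A x * LM v x) - ((c * v x : ℝ) : ℂ)) →
      CB a (closedBall x₀ (ρ / 16)) (K * (M + N)) (D2 v) := by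
  let χ : ContDiffBump x₀ := ⟨ρ / 8, 3 * ρ / 16, by linarith, by linarith⟩
  have hχ : ContDiff ℝ ∞ (χ : Cn n → ℝ) := χ.contDiff
  have hχc : HasCompactSupport (χ : Cn n → ℝ) := χ.hasCompactSupport
  have hχs : tsupport (χ : Cn n → ℝ) = closedBall x₀ (3 * ρ / 16) := χ.tsupport_eq
  obtain ⟨K, hK, k1, k2, k3, k4⟩ := chi_bounds ha ha1 hχ hχc
  have hp : 0 < (ρ / 16) ^ (-a) := Real.rpow_pos_of_pos (by linarith) _
  have hin : x₀ ∈ S' := interior_subset (hx₀ (mem_closedBall_self hρ.le))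
  have hS's : closedBall x₀ ρ ⊆ S' := hx₀.trans interior_subset
  have hsub : ball x₀ (ρ / 4) ⊆ interior S' := by
    refine Subset.trans (ball_subset_closedBall.trans (closedBall_subset_closedBall ?_)) hx₀
    linarith
  obtain ⟨K₁, hK₁, hK₁e⟩ : ∃ K₁, 0 ≤ K₁ ∧ K₁ = 4 * K + 20 * n ^ 2 * A₀ * K :=
    ⟨_, by positivity, rfl⟩
  refine ⟨K₀ * (K₁ * (1 + (ρ / 16) ^ (-a))) + 1, by positivity, ?_⟩
  intro A hA hAB v hv c M N hc hvN hM
  have hN0 : 0 ≤ N := (norm_nonneg _).trans (hvN.1 x₀ hin).1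
  have hM0 : 0 ≤ M := (norm_nonneg _).trans (hM.1 x₀ hin)
  set w : Cn n → ℝ := fun y => χ y * v y with hw
  have hts : tsupport w ⊆ closedBall x₀ (3 * ρ / 16) := by
    rw [← hχs]
    exact tsupport_mul_subset_left
  have hwc : HasCompactSupport w := hχc.mul_right
  have hws : ContDiff ℝ ∞ w := by
    refine w_smooth isOpen_interior hχ hv ?_
    rw [hχs]
    exact (closedBall_subset_closedBall (by linarith)).trans hx₀
  -- the extension
  obtain ⟨At, hAt⟩ : ∃ At : Cn n → Matrix (Fin n) (Fin n) ℂ, At = fun x => A (ret x₀ (ρ / 4) x) :=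
    ⟨_, rfl⟩
  have hmem : ∀ x, ret x₀ (ρ / 4) x ∈ S' := fun x => hS's
    (closedBall_subset_closedBall (by linarith) (ret_mem x₀ (by linarith : 0 ≤ ρ / 4) x))
  have hEll : Ell lam (ball x₀ δ) At := by
    intro x _
    rw [hAt]
    exact hA _ (hmem x)
  have hHB : ∀ i j, HB a (ball x₀ δ) A₀ fun x => At x i j := by
    intro i j x _ y _
    rw [hAt]
    refine ((hAB i j).2 _ (hmem x) _ (hmem y)).trans ?_
    exact mul_le_mul_of_nonneg_left
      (Real.rpow_le_rpow (norm_nonneg _) (ret_lip x₀ (ρ / 4) x y) ha.le) hA₀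
  have hAe : ∀ x ∈ ball x₀ (ρ / 4), At x = A x := by
    intro x hx
    rw [hAt]
    simp only
    rw [ret_eq (ball_subset_closedBall hx)]
  have hF1 : CB a (ball x₀ (ρ / 4)) (K₁ * (M + N))
      (fun x => Matrix.trace (At x * LM w x)) := by
    have hsub' : ball x₀ (ρ / 4) ⊆ S' := hsub.trans interior_subset
    have h3 := rhs_bound h2 ha isOpen_interior hsub hχ hv hK hA₀ hM0 hN0 hc k1 k2 k3 k4
      (fun i j => CB.mono (hAB i j) hsub' le_rfl)
      ⟨fun x hx => hvN.1 x (hsub' hx), fun x hx y hy => hvN.2.1 x (hsub' hx) y (hsub' hy),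
        fun x hx y hy => hvN.2.2 x (hsub' hx) y (hsub' hy)⟩ (CB.mono hM hsub' le_rfl)
    rw [← hK₁e] at h3
    refine cb_congr h3 ?_
    intro x hx
    rw [hAe x hx]
  have hF2 : ∀ x ∉ closedBall x₀ (3 * ρ / 16), Matrix.trace (At x * LM w x) = 0 := by
    intro x hx
    have h0 : w =ᶠ[𝓝 x] 0 := notMem_tsupport_iff_eventuallyEq.1 fun h => hx (hts h)
    rw [LM_zero h0]
    simp
  have hF := ext_zero ha hρ (by positivity) x₀ _ hF1 hF2
  have hD := hS x₀ At hEll hHB w (contDiff_infty.1 hws 2)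
    (hts.trans (closedBall_subset_ball (by linarith))) (D2_hoelder hws hwc ha ha1) _ hF
  have hC0 : 0 ≤ K₀ * (K₁ * (M + N) * (1 + (ρ / 16) ^ (-a))) := by positivity
  have hCle : K₀ * (K₁ * (M + N) * (1 + (ρ / 16) ^ (-a))) ≤
      (K₀ * (K₁ * (1 + (ρ / 16) ^ (-a))) + 1) * (M + N) := by
    nlinarith
  have hDe : ∀ x ∈ closedBall x₀ (ρ / 16), D2 w x = D2 v x := by
    intro x hx
    apply fderiv_sq_congr
    have hx' : x ∈ ball x₀ (ρ / 8) := closedBall_subset_ball (by linarith) hx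
    filter_upwards [isOpen_ball.mem_nhds hx'] with y hy
    rw [hw]
    simp only
    rw [χ.one_of_mem_closedBall (ball_subset_closedBall hy), one_mul]
  refine CB.mono (K := K₀ * (K₁ * (M + N) * (1 + (ρ / 16) ^ (-a)))) ⟨?_, ?_⟩ (Subset.refl _) hCle
  · intro x hx
    rcases Nat.eq_zero_or_pos n with hn | hn
    · subst hn
      exact ((congrArg norm (D2_subsingleton x)).trans ContinuousLinearMap.opNorm_zero).le.trans hC0
    · obtain ⟨x₁, hx₁⟩ : ∃ x₁ : Cn n,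
          x₁ = x₀ + (Pi.single (⟨0, hn⟩ : Fin n) ((ρ / 2 : ℝ) : ℂ) : Cn n) := ⟨_, rfl⟩
      have hd1 : ‖x₁ - x₀‖ = ρ / 2 := by
        rw [hx₁, add_sub_cancel_left, Pi.norm_single, Complex.norm_real, Real.norm_eq_abs,
          abs_of_pos (by linarith)]
      have h0 : w =ᶠ[𝓝 x₁] fun _ => (0 : ℝ) := notMem_tsupport_iff_eventuallyEq.1 fun h => by
        have := hts h
        rw [mem_closedBall, dist_eq_norm, hd1] at this
        linarith
      have hz : D2 w x₁ = 0 := by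
        rw [fderiv_sq_congr h0]
        unfold D2
        simp
      have h3 := hD x (mem_univ _) x₁ (mem_univ _)
      rw [norm_sub_null _ _ hz, hDe x hx] at h3
      refine h3.trans ?_
      have h4 : ‖x - x₁‖ ≤ 1 := by
        rw [mem_closedBall, dist_eq_norm] at hx
        calc ‖x - x₁‖ = ‖(x - x₀) - (x₁ - x₀)‖ := by congr 1; abel
          _ ≤ ‖x - x₀‖ + ‖x₁ - x₀‖ := norm_sub_le _ _
          _ ≤ 1 := by linarith
      have h5 : ‖x - x₁‖ ^ a ≤ 1 := Real.rpow_le_one (norm_nonneg _) h4 ha.le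
      calc _ ≤ K₀ * (K₁ * (M + N) * (1 + (ρ / 16) ^ (-a))) * 1 :=
            mul_le_mul_of_nonneg_left h5 hC0
        _ = _ := mul_one _
  · intro x hx y hy
    rw [← hDe x hx, ← hDe y hy]
    exact hD x (mem_univ _) y (mem_univ _)

end Locs

open Locs in
theorem locs (h1 : S_SCHL) (h2 : S_HALG) (h4 : S_COV) : S_LOCS := by
  intro n S S' a lam A₀ hSc hS'c hSS ha ha1 hlam hA₀
  obtain ⟨δ, hδ, K₀, hK₀, hS⟩ := h1 n a lam A₀ ha ha1 hlam hA₀
  obtain ⟨ρ', hρ', hρS⟩ := hSc.exists_cthickening_subset_open isOpen_interior hSS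
  obtain ⟨ρ, hρ, hρδ, hρ1, hρρ⟩ : ∃ ρ : ℝ, 0 < ρ ∧ ρ ≤ δ ∧ ρ ≤ 1 ∧ ρ ≤ ρ' :=
    ⟨min δ (min 1 ρ'), lt_min hδ (lt_min one_pos hρ'), min_le_left _ _,
      (min_le_right _ _).trans (min_le_left _ _), (min_le_right _ _).trans (min_le_right _ _)⟩
  have hball : ∀ x ∈ S, closedBall x ρ ⊆ interior S' := fun x hx =>
    ((closedBall_subset_closedBall hρρ).trans (closedBall_subset_cthickening hx ρ')).trans hρS
  obtain ⟨F, K_C, hKC, hFS, hF⟩ := h4 n S a (fun _ => ρ / 16) hSc ha (fun _ _ => by linarith)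
  have hloc : ∀ x₀ : Cn n, ∃ K > 0, x₀ ∈ S → ∀ A : Cn n → Matrix (Fin n) (Fin n) ℂ,
      Ell lam S' A → (∀ i j, CB a S' A₀ fun x => A x i j) →
      ∀ v : Cn n → ℝ, ContDiffOn ℝ ∞ v (interior S') → ∀ c M N : ℝ, |c| ≤ 1 → C1B a S' N v →
      CB a S' M (fun x => Matrix.trace (A x * LM v x) - ((c * v x : ℝ) : ℂ)) →
      CB a (closedBall x₀ (ρ / 16)) (K * (M + N)) (D2 v) := by
    intro x₀
    by_cases hx : x₀ ∈ S
    · obtain ⟨K, hK, h⟩ := core h2 ha ha1 hA₀ hK₀ hS S' ρ hρ hρδ hρ1 x₀ (hball x₀ hx)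
      exact ⟨K, hK, fun _ => h⟩
    · exact ⟨1, one_pos, fun h => absurd h hx⟩
  choose K hK hKc using hloc
  have hsum : 0 ≤ ∑ x ∈ F, K x := Finset.sum_nonneg fun x _ => (hK x).le
  refine ⟨K_C * (∑ x ∈ F, K x + 1), by positivity, ?_⟩
  intro A hA hAB v hv c M N hc hvN hM
  have h := hF (D2 v) ((∑ x ∈ F, K x + 1) * (M + N)) ?_
  · rw [mul_assoc]
    exact h
  · intro x hx
    have hxS : x ∈ S' := interior_subset (hSS (hFS x hx))
    have hN0 : 0 ≤ N := (norm_nonneg _).trans (hvN.1 x hxS).1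
    have hM0 : 0 ≤ M := (norm_nonneg _).trans (hM.1 x hxS)
    refine CB.mono (hKc x (hFS x hx) A hA hAB v hv c M N hc hvN hM) (Subset.refl _) ?_
    refine mul_le_mul_of_nonneg_right ?_ (by linarith)
    have := Finset.single_le_sum (f := K) (fun i _ => (hK i).le) hx
    linarith

end Pool.Agent.Helper58.HS
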