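import Pool.Agent.Helper95.HS.GoalsA

/-!
# HS, packet SOB2: the Sobolev inequality in the plane
-/

open Complex Metric Set Filter Topology MeasureTheory
open scoped ContDiff NNReal ENNReal

namespace Pool.Agent.Helper58.HS

open Pool.Agent.Helper95.HS

theorem hasCompactSupport_of (f : ℂ → ℝ) (h : ∀ z ∉ ball (0 : ℂ) 2, f z = 0) :
    HasCompactSupport f :=
  HasCompactSupport.intro (isCompact_closedBall (0 : ℂ) 2)
    fun z hz => h z fun hz' => hz (ball_subset_closedBall hz')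

theorem fderiv_zero_of (f : ℂ → ℝ) (h : ∀ z ∉ ball (0 : ℂ) 2, f z = 0) :
    ∀ z ∉ closedBall (0 : ℂ) 2, fderiv ℝ f z = 0 := by
  intro z hz
  have h1 : f =ᶠ[𝓝 z] fun _ => 0 := by
    filter_upwards [isClosed_closedBall.isOpen_compl.mem_nhds hz] with w hw
    exact h w fun hw' => hw (ball_subset_closedBall hw')
  rw [h1.fderiv_eq]
  simp

theorem eLpNorm_real {F : Type*} [NormedAddCommGroup F] (f : ℂ → F) (hf : Continuous f)
    (hc : HasCompactSupport f) (m : ℕ) (hm : 1 ≤ m) :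
    eLpNorm f ((m : ℝ≥0) : ℝ≥0∞) volume =
      ENNReal.ofReal ((∫ z, ‖f z‖ ^ m) ^ ((m : ℝ)⁻¹)) := by
  have h0 : ((m : ℝ≥0) : ℝ≥0∞) ≠ 0 := by
    simp only [ne_eq, ENNReal.coe_eq_zero, Nat.cast_eq_zero]
    omega
  have h1 : MemLp f ((m : ℝ≥0) : ℝ≥0∞) volume := hf.memLp_of_hasCompactSupport hc
  rw [h1.eLpNorm_eq_integral_rpow_norm h0 ENNReal.coe_ne_top]
  simp only [ENNReal.coe_toReal, NNReal.coe_natCast, Real.rpow_natCast]

theorem gns (r q : ℝ≥0) (hr1 : 1 ≤ r) (h : (q : ℝ)⁻¹ = (r : ℝ)⁻¹ - (2 : ℝ)⁻¹) :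
    ∃ C : ℝ≥0, ∀ f : ℂ → ℝ, ContDiff ℝ 1 f → HasCompactSupport f →
      eLpNorm f q (volume : Measure ℂ) ≤ C * eLpNorm (fderiv ℝ f) r (volume : Measure ℂ) := by
  have h2 : Module.finrank ℝ ℂ = 2 := Complex.finrank_real_complex
  refine ⟨SNormLESNormFDerivOfEqConst ℝ (volume : Measure ℂ) r, fun f hf hc => ?_⟩
  have h3 : (q : ℝ)⁻¹ = (r : ℝ)⁻¹ - ((Module.finrank ℝ ℂ : ℕ) : ℝ)⁻¹ := by rw [h2, h]; norm_num
  exact eLpNorm_le_eLpNorm_fderiv_of_eq (volume : Measure ℂ) hf hc hr1 (by rw [h2]; norm_num) h3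

theorem gns2 (r q : ℝ≥0) (hr1 : 1 ≤ r) (hr2 : (r : ℝ) ≤ 2)
    (h : (q : ℝ)⁻¹ = (r : ℝ)⁻¹ - (2 : ℝ)⁻¹) :
    ∃ C : ℝ≥0, ∀ f : ℂ → ℝ, ContDiff ℝ 1 f → (∀ z ∉ ball (0 : ℂ) 2, f z = 0) →
      eLpNorm f q (volume : Measure ℂ) ≤
        C * eLpNorm (fderiv ℝ f) (((2 : ℕ) : ℝ≥0) : ℝ≥0∞) (volume : Measure ℂ) := by
  obtain ⟨C1, hC1⟩ := gns r q hr1 h
  obtain ⟨B, hB⟩ : ∃ B : ℝ≥0∞, B = (volume (closedBall (0 : ℂ) 2)) ^ (1 / (r : ℝ) - 1 / 2) :=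
    ⟨_, rfl⟩
  have hBtop : B ≠ ⊤ := by
    rw [hB]
    refine ENNReal.rpow_ne_top_of_nonneg ?_ (isCompact_closedBall _ _).measure_lt_top.ne
    rw [sub_nonneg]
    exact one_div_le_one_div_of_le (by linarith [show (1 : ℝ) ≤ r from hr1]) hr2
  refine ⟨C1 * B.toNNReal, fun f hf h0 => ?_⟩
  have hfc : Continuous (fderiv ℝ f) := hf.continuous_fderiv one_ne_zero
  have h2 : eLpNorm (fderiv ℝ f) r volume ≤
      eLpNorm (fderiv ℝ f) (((2 : ℕ) : ℝ≥0) : ℝ≥0∞) volume * B := by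
    have h3 : (closedBall (0 : ℂ) 2).indicator (fderiv ℝ f) = fderiv ℝ f := by
      rw [Set.indicator_eq_self]
      intro z hz
      by_contra hz'
      exact hz (fderiv_zero_of f h0 z hz')
    have h4 := eLpNorm_indicator_eq_eLpNorm_restrict (f := fderiv ℝ f) (p := (r : ℝ≥0∞))
      (μ := (volume : Measure ℂ)) (s := closedBall (0 : ℂ) 2) measurableSet_closedBall
    rw [h3] at h4
    rw [h4]
    refine (eLpNorm_le_eLpNorm_mul_rpow_measure_univ (q := (((2 : ℕ) : ℝ≥0) : ℝ≥0∞)) ?_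
      hfc.aestronglyMeasurable).trans ?_
    · rw [ENNReal.coe_le_coe, ← NNReal.coe_le_coe]
      simpa using hr2
    · rw [Measure.restrict_apply_univ]
      have h5 : ((r : ℝ≥0∞)).toReal = (r : ℝ) := ENNReal.coe_toReal r
      have h6 : (((((2 : ℕ) : ℝ≥0) : ℝ≥0∞))).toReal = 2 := by simp
      rw [h5, h6, ← hB]
      exact mul_le_mul_left (eLpNorm_mono_measure _ Measure.restrict_le_self) _
  refine (hC1 f hf (hasCompactSupport_of f h0)).trans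
    ((mul_le_mul_right h2 (C1 : ℝ≥0∞)).trans (le_of_eq ?_))
  rw [ENNReal.coe_mul, ENNReal.coe_toNNReal hBtop]
  ring

theorem sob2 : S_SOB2 := by
  intro p hp
  have hp' : (1 : ℝ) ≤ p := by exact_mod_cast hp
  -- the exponent
  set r : ℝ≥0 := (4 * p : ℝ≥0) / (2 * p + 1) with hr
  have hrv : (r : ℝ) = 4 * p / (2 * p + 1) := by rw [hr]; push_cast; rfl
  have hr1 : 1 ≤ r := by
    rw [← NNReal.coe_le_coe, hrv, NNReal.coe_one, le_div_iff₀ (by positivity)]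
    linarith
  have hr2 : (r : ℝ) ≤ 2 := by
    rw [hrv, div_le_iff₀ (by positivity)]
    linarith
  have hrinv : (((4 * p : ℕ) : ℝ≥0) : ℝ)⁻¹ = (r : ℝ)⁻¹ - (2 : ℝ)⁻¹ := by
    rw [hrv]
    push_cast
    field_simp
    ring
  obtain ⟨C, hC⟩ := gns2 r ((4 * p : ℕ) : ℝ≥0) hr1 hr2 hrinv
  refine ⟨(C : ℝ) ^ (4 * p), by positivity, fun f hf h0 => ?_⟩
  have hcs := hasCompactSupport_of f h0
  have hfc : Continuous (fderiv ℝ f) := hf.continuous_fderiv one_ne_zero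
  have hfcs : HasCompactSupport (fderiv ℝ f) := hcs.fderiv ℝ
  have h3 := hC f hf h0
  rw [eLpNorm_real f hf.continuous hcs (4 * p) (by omega),
    eLpNorm_real (fderiv ℝ f) hfc hfcs 2 (by norm_num)] at h3
  have hI : 0 ≤ ∫ z, ‖f z‖ ^ (4 * p) := integral_nonneg fun z => by positivity
  have hJ : 0 ≤ ∫ z, ‖fderiv ℝ f z‖ ^ 2 := integral_nonneg fun z => by positivity
  have h4 : (∫ z, ‖f z‖ ^ (4 * p)) ^ (((4 * p : ℕ) : ℝ)⁻¹) ≤
      (C : ℝ) * (∫ z, ‖fderiv ℝ f z‖ ^ 2) ^ ((((2 : ℕ) : ℝ))⁻¹) := by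
    have h5 : (C : ℝ≥0∞) * (ENNReal.ofReal ((∫ z, ‖fderiv ℝ f z‖ ^ 2) ^ ((((2 : ℕ) : ℝ))⁻¹))) =
        ENNReal.ofReal ((C : ℝ) * (∫ z, ‖fderiv ℝ f z‖ ^ 2) ^ ((((2 : ℕ) : ℝ))⁻¹)) := by
      rw [ENNReal.ofReal_mul (by positivity), ENNReal.ofReal_coe_nnreal]
    rw [h5] at h3
    exact (ENNReal.ofReal_le_ofReal_iff (by positivity)).1 h3
  have h5 := pow_le_pow_left₀ (by positivity) h4 (4 * p)
  rw [Real.rpow_inv_natCast_pow hI (by omega), mul_pow] at h5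
  have h6 : ((∫ z, ‖fderiv ℝ f z‖ ^ 2) ^ ((((2 : ℕ) : ℝ))⁻¹)) ^ (4 * p) =
      (∫ z, ‖fderiv ℝ f z‖ ^ 2) ^ (2 * p) := by
    rw [show 4 * p = 2 * (2 * p) by ring, pow_mul, Real.rpow_inv_natCast_pow hJ (by norm_num)]
  rw [h6] at h5
  exact h5

end Pool.Agent.Helper58.HS
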